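import Pool.Agent.Helper24.H2.Defs
import Pool.Agent.Helper23.HNG.Dbl

set_option autoImplicit false
set_option linter.unusedVariables false
set_option linter.unusedSectionVars false

/-!
# Type 2: the two double coverings for all `m ≥ 1`

`Mq c y`: the matrix of the quadratic form `S(· , · ; y)`. `dblX hm c`: the two double coverings with
the forms `cG c`, `cG (swc c)`. `gG_nx`, `gG_ny`: over `y` (over `x`) the forms are, up to a factor,
the symmetric product of the point with the second point `nx` (`ny`).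
-/

namespace Pool.Agent.Helper23.H2

open MvPolynomial
open Pool.Agent.Helper28.HN (I cr)
open Pool.Agent.Helper24.H2
open Pool.Agent.Helper37.RP (IsLine bil gram pr bil_lin bil_comm gram_eq_bil exists_other exists_pt
  isHomogeneous_gram gram_zero map_gram)
open Pool.Agent.Helper23.HNG (NN NN_apply rows NN_eq rows_zero rows_one rows_succ ss_ne_zero
  ss_ne_one zero_ne_one' cases3 det_swap NN_anti NN_diag isLine_NN dot_NN wedge_eq sp sp_gram ker_adj
  isHomogeneous_single exists_factor map_single map_cr)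

universe u

section ring

variable {m : ℕ} {S : Type*} [CommRing S]

/-! ### Linearity -/

theorem bf_eq (c : Ix m → S) (r : Bi m) (x y : I m → S) :
    bf c r x y = ∑ i, bf c r (Pi.single i 1) y * x i := by
  have e : ∀ i : I m, bf c r (Pi.single i 1) y = ∑ j, c (.inl (r, i, j)) * y j := by
    intro i
    unfold bf
    rw [Finset.sum_eq_single i]
    · refine Finset.sum_congr rfl fun j _ => ?_
      rw [Pi.single_eq_same]
      ring
    · intro b _ hb
      refine Finset.sum_eq_zero fun j _ => ?_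
      rw [Pi.single_eq_of_ne hb]
      ring
    · simp
  simp only [e]
  unfold bf
  refine Finset.sum_congr rfl fun i _ => ?_
  rw [Finset.sum_mul]
  exact Finset.sum_congr rfl fun j _ => by ring

/-- The matrix of the quadratic form `S(· , · ; y)`. -/
def Mq (c : Ix m → S) (y : I m → S) : Matrix (I m) (I m) S :=
  fun i j => ∑ k, (c (.inr (.inl (i, j, k))) + c (.inr (.inl (j, i, k)))) * y k

theorem Mq_symm (c : Ix m → S) (y : I m → S) (i j : I m) : Mq c y i j = Mq c y j i := by
  unfold Mq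
  exact Finset.sum_congr rfl fun k _ => by ring

theorem sf_eq (c : Ix m → S) (x x' y : I m → S) : sf c x x' y = bil (Mq c y) x x' := by
  unfold sf bil Mq
  refine Finset.sum_congr rfl fun i _ => Finset.sum_congr rfl fun j _ => ?_
  rw [Finset.mul_sum, Finset.sum_mul]
  exact Finset.sum_congr rfl fun l _ => by ring

theorem tf_eq (c : Ix m → S) (x y y' : I m → S) :
    tf c x y y' = ∑ i, tf c (Pi.single i 1) y y' * x i := by
  have e : ∀ i : I m, tf c (Pi.single i 1) y y' =
      ∑ j, ∑ k, (c (.inr (.inr (i, j, k))) + c (.inr (.inr (i, k, j)))) * y j * y' k := by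
    intro i
    unfold tf
    rw [Finset.sum_eq_single i]
    · refine Finset.sum_congr rfl fun j _ => Finset.sum_congr rfl fun k _ => ?_
      rw [Pi.single_eq_same]
      ring
    · intro b _ hb
      refine Finset.sum_eq_zero fun j _ => Finset.sum_eq_zero fun k _ => ?_
      rw [Pi.single_eq_of_ne hb]
      ring
    · simp
  simp only [e]
  unfold tf
  refine Finset.sum_congr rfl fun i _ => ?_
  rw [Finset.sum_mul]
  refine Finset.sum_congr rfl fun j _ => ?_
  rw [Finset.sum_mul]
  exact Finset.sum_congr rfl fun k _ => by ring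

theorem ly_eq (c : Ix m → S) (r : Fin m) (x y : I m → S) :
    ly c r x y = ∑ i, rw' c y r i * x i := by
  unfold rw' ly
  split_ifs with h
  · exact bf_eq c ⟨r, h⟩ x y
  · exact tf_eq c x y y

/-! ### Exchange -/

theorem sw_sw (e : Ix m) : sw (sw e) = e := by
  rcases e with ⟨r, i, j⟩ | ⟨i, j, k⟩ | ⟨i, j, k⟩ <;> rfl

/-- Exchange of the two factors. -/
def swc {X : Type*} (c : Ix m → X) : Ix m → X := fun e => c (sw e)

theorem swc_swc {X : Type*} (c : Ix m → X) : swc (swc c) = c := by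
  funext e
  simp only [swc, sw_sw]

theorem bf_sw (c : Ix m → S) (r : Bi m) (x y : I m → S) : bf (swc c) r y x = bf c r x y := by
  unfold bf
  rw [Finset.sum_comm]
  refine Finset.sum_congr rfl fun i _ => Finset.sum_congr rfl fun j _ => ?_
  simp only [swc, sw]
  ring

theorem sum_rot (f : I m → I m → I m → S) :
    ∑ i, ∑ j, ∑ k, f i j k = ∑ k, ∑ i, ∑ j, f i j k := by
  calc ∑ i, ∑ j, ∑ k, f i j k = ∑ i, ∑ k, ∑ j, f i j k :=
        Finset.sum_congr rfl fun i _ => Finset.sum_comm
    _ = ∑ k, ∑ i, ∑ j, f i j k := Finset.sum_comm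

theorem sf_sw (c : Ix m → S) (x y y' : I m → S) : sf (swc c) y y' x = tf c x y y' := by
  unfold sf tf
  rw [sum_rot]
  refine Finset.sum_congr rfl fun i _ => Finset.sum_congr rfl fun j _ =>
    Finset.sum_congr rfl fun k _ => ?_
  simp only [swc, sw]
  ring

theorem tf_sw (c : Ix m → S) (x x' y : I m → S) : tf (swc c) y x x' = sf c x x' y := by
  rw [← sf_sw (swc c), swc_swc]

theorem lx_sw (c : Ix m → S) (r : Fin m) (x y : I m → S) : lx (swc c) r y x = ly c r x y := by
  unfold lx ly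
  split_ifs with h
  · exact bf_sw c ⟨r, h⟩ x y
  · exact sf_sw c x y y

theorem ly_sw (c : Ix m → S) (r : Fin m) (x y : I m → S) : ly (swc c) r y x = lx c r x y := by
  rw [← lx_sw (swc c), swc_swc]

theorem onX_sw (c : Ix m → S) (x y : I m → S) : OnX (swc c) y x ↔ OnX c x y := by
  unfold OnX
  rw [sf_sw, tf_sw]
  simp only [bf_sw]
  tauto

/-- Over `y`. -/
theorem onX_iff (hm : 1 ≤ m) (c : Ix m → S) (x y : I m → S) :
    OnX c x y ↔ (∀ r, ly c r x y = 0) ∧ sf c x x y = 0 := by
  constructor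
  · rintro ⟨h1, h2, h3⟩
    refine ⟨fun r => ?_, h2⟩
    unfold ly
    split_ifs with h
    · exact h1 _
    · exact h3
  · rintro ⟨h1, h2⟩
    refine ⟨fun r => ?_, h2, ?_⟩
    · have h3 := h1 r.1
      unfold ly at h3
      rw [dif_pos r.2] at h3
      exact h3
    · have h3 := h1 ⟨m - 1, by omega⟩
      unfold ly at h3
      rw [dif_neg (by simp only; omega)] at h3
      exact h3

theorem onX_ly {c : Ix m → S} {x y : I m → S} (h : OnX c x y) (r : Fin m) : ly c r x y = 0 := by
  obtain ⟨h1, h2, h3⟩ := h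
  unfold ly
  split_ifs with h
  · exact h1 _
  · exact h3

theorem onX_lx {c : Ix m → S} {x y : I m → S} (h : OnX c x y) (r : Fin m) : lx c r x y = 0 := by
  obtain ⟨h1, h2, h3⟩ := h
  unfold lx
  split_ifs with h
  · exact h1 _
  · exact h2

/-! ### The forms -/

theorem gG_eq (c : Ix m → S) (y : I m → S) (p : I m × I m) :
    gG c y p = gram (Mq c y) (NN (rw' c y)) p.1 p.2 := by
  rw [gG, gram_eq_bil, sf_eq]
  rfl

theorem ly_sum (c : Ix m → S) (r : Fin m) (x y : I m → S) :
    ly c r x y = ∑ i, x i * ly c r (Pi.single i 1) y := by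
  rw [ly_eq]
  exact Finset.sum_congr rfl fun i _ => mul_comm _ _

theorem lx_sum (c : Ix m → S) (r : Fin m) (x y : I m → S) :
    lx c r x y = ∑ i, y i * lx c r x (Pi.single i 1) := by
  rw [← ly_sw, ly_sum]
  refine Finset.sum_congr rfl fun i _ => ?_
  rw [ly_sw]

theorem ly_xh (c : Ix m → S) (y : I m → S) (r : Fin m) : ly c r (xh c y) y = 0 := by
  rw [ly_sum, Fin.sum_univ_succ, Fin.sum_univ_castSucc]
  simp only [xh, vh, Fin.cons_zero, Fin.cons_succ, Fin.snoc_castSucc, Fin.snoc_last, zero_mul,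
    zero_add, Pi.neg_apply, neg_mul, Finset.sum_neg_distrib]
  have h := ker_adj (Nx c y) (fun r => ly c r (Pi.single (Fin.last (m + 1)) 1) y) r
  have h2 : ∀ i : Fin m, Nx c y r i = ly c r (Pi.single i.castSucc.succ 1) y := fun i => rfl
  simp only [h2] at h
  rw [h, Fin.succ_last]
  ring

theorem lx_Y1 (c : Ix m → S) (x : I m → S) (r : Fin m) : lx c r x (Y1 c x) = 0 := by
  rw [lx_sum, Fin.sum_univ_succ, Fin.sum_univ_succ]
  simp only [Y1, Fin.cons_zero, Fin.cons_succ, zero_mul, zero_add, Pi.neg_apply, neg_mul,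
    Finset.sum_neg_distrib]
  have h := ker_adj (Mx c x) (fun r => lx c r x (Pi.single 1 1)) r
  have h2 : ∀ i : Fin m, Mx c x r i = lx c r x (Pi.single i.succ.succ 1) := fun i => rfl
  simp only [h2] at h
  rw [h]
  have h1 : (Fin.succ 0 : Fin (m + 2)) = 1 := rfl
  rw [h1]
  ring

theorem lx_Y0 (c : Ix m → S) (x : I m → S) (r : Fin m) : lx c r x (Y0 c x) = 0 := by
  rw [lx_sum, Fin.sum_univ_succ, Fin.sum_univ_succ]
  simp only [Y0, Fin.cons_zero, Fin.cons_succ, zero_mul, zero_add, Pi.neg_apply, neg_mul,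
    Finset.sum_neg_distrib]
  have h := ker_adj (Mx c x) (fun r => lx c r x (Pi.single 0 1)) r
  have h2 : ∀ i : Fin m, Mx c x r i = lx c r x (Pi.single i.succ.succ 1) := fun i => rfl
  simp only [h2] at h
  rw [h]
  ring

theorem lx_yh (c : Ix m → S) (x : I m → S) (z : S) (r : Fin m) : lx c r x (yh c x z) = 0 := by
  have e : lx c r x (yh c x z) = lx c r x (Y0 c x) + z * lx c r x (Y1 c x) := by
    rw [lx_sum c r x (yh c x z), lx_sum c r x (Y0 c x), lx_sum c r x (Y1 c x),
      Finset.mul_sum, ← Finset.sum_add_distrib]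
    refine Finset.sum_congr rfl fun i _ => ?_
    simp only [yh]
    ring
  rw [e, lx_Y0, lx_Y1]
  ring

theorem isLine_x (c : Ix m → S) {x y : I m → S} (h : ∀ r, ly c r x y = 0) :
    IsLine (NN (rw' c y)) x := isLine_NN _ _ fun r => by rw [← ly_eq]; exact h r

theorem nx_eq (c : Ix m → S) (x y : I m → S) : nx c x y = sp (Mq c y) (xh c y) x := by
  funext i
  simp only [nx, sp, sf_eq]

theorem ny_eq (c : Ix m → S) (x y : I m → S) : ny c x y = sp (Mq (swc c) x) (Y1 c x) y := by
  funext i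
  simp only [ny, sp, Ah, ← sf_eq, sf_sw]

/-! ### Naturality -/

section nat

variable {T : Type*} [CommRing T] (f : S →+* T)

theorem map_bf (c : Ix m → S) (r : Bi m) (x y : I m → S) :
    f (bf c r x y) = bf (fun e => f (c e)) r (fun i => f (x i)) (fun i => f (y i)) := by
  simp only [bf, map_sum, map_mul]

theorem map_sf (c : Ix m → S) (x x' y : I m → S) :
    f (sf c x x' y) = sf (fun e => f (c e)) (fun i => f (x i)) (fun i => f (x' i))
      (fun i => f (y i)) := by
  simp only [sf, map_sum, map_mul, map_add]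

theorem map_tf (c : Ix m → S) (x y y' : I m → S) :
    f (tf c x y y') = tf (fun e => f (c e)) (fun i => f (x i)) (fun i => f (y i))
      (fun i => f (y' i)) := by
  simp only [tf, map_sum, map_mul, map_add]

theorem map_ly (c : Ix m → S) (r : Fin m) (x y : I m → S) :
    f (ly c r x y) = ly (fun e => f (c e)) r (fun i => f (x i)) (fun i => f (y i)) := by
  unfold ly
  split_ifs with h
  · exact map_bf f c _ x y
  · exact map_tf f c x y y

theorem map_lx (c : Ix m → S) (r : Fin m) (x y : I m → S) :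
    f (lx c r x y) = lx (fun e => f (c e)) r (fun i => f (x i)) (fun i => f (y i)) := by
  unfold lx
  split_ifs with h
  · exact map_bf f c _ x y
  · exact map_sf f c x x y

theorem map_rw' (c : Ix m → S) (y : I m → S) (r : Fin m) (i : I m) :
    f (rw' c y r i) = rw' (fun e => f (c e)) (fun i => f (y i)) r i := by
  rw [rw', rw', map_ly, map_single]

theorem map_gG (c : Ix m → S) (y : I m → S) (p : I m × I m) :
    f (gG c y p) = gG (fun e => f (c e)) (fun i => f (y i)) p := by
  rw [gG, gG, map_mul, map_ofNat, map_sf]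
  simp only [map_cr, map_rw', map_single]

theorem map_Mq (c : Ix m → S) (y : I m → S) :
    (Mq c y).map f = Mq (fun e => f (c e)) (fun i => f (y i)) := by
  ext i j
  simp only [Mq, Matrix.map_apply, map_sum, map_mul, map_add]

end nat

theorem eval_cG (c : Ix m → S) (y : I m → S) (p : I m × I m) :
    eval y (cG c p) = gG c y p := by
  rw [cG, map_gG (eval y)]
  simp only [eval_C, eval_X]

theorem aeval_cG {T : Type*} [CommRing T] [Algebra S T] (c : Ix m → S) (y : I m → T)
    (p : I m × I m) :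
    aeval y (cG c p) = gG (fun e => algebraMap S T (c e)) y p := by
  have h := map_gG ((aeval y : MvPolynomial (I m) S →ₐ[S] T) : MvPolynomial (I m) S →+* T)
    (fun e => C (c e)) X p
  rw [cG]
  refine Eq.trans h ?_
  congr 1
  · funext e
    exact aeval_C _ _
  · funext i
    exact aeval_X _ _

theorem map_cG {T : Type*} [CommRing T] (f : S →+* T) (c : Ix m → S) (p : I m × I m) :
    MvPolynomial.map f (cG c p) = cG (fun e => f (c e)) p := by
  rw [cG, map_gG (MvPolynomial.map f)]
  simp only [map_C, map_X]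
  rfl

/-! ### Degrees -/

theorem isHomogeneous_Mq (c : Ix m → S) (i j : I m) :
    (Mq (fun e => (C (c e) : MvPolynomial (I m) S)) X i j).IsHomogeneous 1 := by
  unfold Mq
  refine IsHomogeneous.sum _ _ _ fun k _ => ?_
  have h := ((isHomogeneous_C (I m) (c (.inr (.inl (i, j, k))))).add
    (isHomogeneous_C (I m) (c (.inr (.inl (j, i, k)))))).mul (isHomogeneous_X S k)
  rwa [zero_add] at h

theorem isHomogeneous_bf (c : Ix m → S) (r : Bi m) (i : I m) :
    (bf (fun e => (C (c e) : MvPolynomial (I m) S)) r (Pi.single i 1) X).IsHomogeneous 1 := by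
  unfold bf
  refine IsHomogeneous.sum _ _ _ fun a _ => IsHomogeneous.sum _ _ _ fun b _ => ?_
  have h := ((isHomogeneous_C (I m) (c (.inl (r, a, b)))).mul (isHomogeneous_single i a)).mul
    (isHomogeneous_X S b)
  rwa [zero_add, zero_add] at h

theorem isHomogeneous_tf (c : Ix m → S) (i : I m) :
    (tf (fun e => (C (c e) : MvPolynomial (I m) S)) (Pi.single i 1) X X).IsHomogeneous 2 := by
  unfold tf
  refine IsHomogeneous.sum _ _ _ fun a _ => IsHomogeneous.sum _ _ _ fun b _ =>
    IsHomogeneous.sum _ _ _ fun d _ => ?_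
  have h := ((((isHomogeneous_C (I m) (c (.inr (.inr (a, b, d))))).add
    (isHomogeneous_C (I m) (c (.inr (.inr (a, d, b)))))).mul (isHomogeneous_single i a)).mul
    (isHomogeneous_X S b)).mul (isHomogeneous_X S d)
  rwa [zero_add, zero_add] at h

/-- The degrees of the linear forms. -/
def dg (r : Fin m) : ℕ := if r.val + 1 < m then 1 else 2

theorem sum_dg (hm : 1 ≤ m) : ∑ r : Fin m, dg r = m + 1 := by
  obtain ⟨n, rfl⟩ : ∃ n, m = n + 1 := ⟨m - 1, by omega⟩
  rw [Fin.sum_univ_castSucc]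
  have h1 : ∀ r : Fin n, dg r.castSucc = 1 := by
    intro r
    unfold dg
    rw [if_pos]
    simp
  have h2 : dg (Fin.last n) = 2 := by
    unfold dg
    rw [if_neg]
    simp
  simp only [h1, h2]
  simp

theorem isHomogeneous_rw' (c : Ix m → S) (r : Fin m) (i : I m) :
    (rw' (fun e => (C (c e) : MvPolynomial (I m) S)) X r i).IsHomogeneous (dg r) := by
  unfold rw' ly dg
  split_ifs with h
  · exact isHomogeneous_bf c ⟨r, h⟩ i
  · exact isHomogeneous_tf c i

theorem isHomogeneous_NN (hm : 1 ≤ m) (c : Ix m → S) (i j : I m) :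
    (NN (rw' (fun e => (C (c e) : MvPolynomial (I m) S)) X) i j).IsHomogeneous (m + 1) := by
  rw [NN_eq, Matrix.det_apply]
  refine IsHomogeneous.sum _ _ _ fun σ _ => ?_
  let d : Fin (m + 2) → ℕ := Fin.cons 0 (Fin.cons 0 fun r => dg r)
  have hd : ∀ a b : Fin (m + 2), (rows (Pi.single i 1) (Pi.single j 1)
      (rw' (fun e => (C (c e) : MvPolynomial (I m) S)) X) a b).IsHomogeneous (d a) := by
    intro a b
    revert a
    refine cases3 ?_ ?_ fun r => ?_
    · exact isHomogeneous_single i b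
    · exact isHomogeneous_single j b
    · exact isHomogeneous_rw' c r b
  have hs : ∑ a, d (σ a) = m + 1 := by
    rw [Equiv.sum_comp σ d, Fin.sum_univ_succ, Fin.sum_univ_succ]
    simp only [d, Fin.cons_zero, Fin.cons_succ, zero_add]
    exact sum_dg hm
  have h2 : (∏ a, rows (Pi.single i 1) (Pi.single j 1)
      (rw' (fun e => (C (c e) : MvPolynomial (I m) S)) X) (σ a) a).IsHomogeneous (m + 1) := by
    have h3 := IsHomogeneous.prod Finset.univ (fun a => rows (Pi.single i 1) (Pi.single j 1)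
      (rw' (fun e => (C (c e) : MvPolynomial (I m) S)) X) (σ a) a) (fun a => d (σ a))
      fun a _ => hd (σ a) a
    rw [hs] at h3
    exact h3
  rcases Int.units_eq_one_or (Equiv.Perm.sign σ) with h | h
  · rw [h, one_smul]
    exact h2
  · rw [h, Units.neg_smul, one_smul]
    exact h2.neg

theorem isHomogeneous_cG (hm : 1 ≤ m) (c : Ix m → S) (p : I m × I m) :
    (cG c p).IsHomogeneous (2 * m + 3) := by
  rw [cG, gG_eq]
  exact isHomogeneous_gram _ _ (isHomogeneous_Mq c) (isHomogeneous_NN hm c) p.1 p.2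

end ring

section field

variable {m : ℕ} {k : Type u} [Field k]

/-- Over `y`: the forms `gG` are, up to a factor, the symmetric product of `x` and `nx c x y`. -/
theorem gG_nx (c : Ix m → k) {x y : I m → k} (h : OnX c x y)
    (hw : ∃ j l, x j * xh c y l - x l * xh c y j ≠ 0) :
    ∃ t : k, ∀ p, gG c y p = t * Pool.Agent.Helper47.NI.pr x (nx c x y) p := by
  have h0 : bil (Mq c y) x x = 0 := by
    rw [← sf_eq]
    exact h.2.1
  obtain ⟨t, ht⟩ := exists_factor (Mq_symm c y) (isLine_x c (onX_ly h)) (isLine_x c (ly_xh c y)) h0 hw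
  refine ⟨t, fun p => ?_⟩
  rw [gG_eq, ht, nx_eq]
  rfl

/-- Over `x`: the same for `ny c x y`. -/
theorem gG_ny (c : Ix m → k) {x y : I m → k} (h : OnX c x y)
    (hw : ∃ j l, y j * Y1 c x l - y l * Y1 c x j ≠ 0) :
    ∃ t : k, ∀ p, gG (swc c) x p = t * Pool.Agent.Helper47.NI.pr y (ny c x y) p := by
  have h' := (onX_sw c x y).2 h
  have h0 : bil (Mq (swc c) x) y y = 0 := by
    rw [← sf_eq]
    exact h'.2.1
  have h1 : ∀ r, ly (swc c) r (Y1 c x) x = 0 := fun r => by rw [ly_sw, lx_Y1]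
  obtain ⟨t, ht⟩ := exists_factor (Mq_symm (swc c) x) (isLine_x _ (onX_ly h')) (isLine_x _ h1) h0 hw
  refine ⟨t, fun p => ?_⟩
  rw [gG_eq, ht, ny_eq]
  rfl

/-- The second point over `y`. -/
theorem exists_snd (hm : 1 ≤ m) (c : Ix m → k) {x y : I m → k} (hx : x ≠ 0) (h : OnX c x y)
    (hG : ∃ p, gG c y p ≠ 0) :
    ∃ x', x' ≠ 0 ∧ OnX c x' y ∧ ∀ p, gG c y p = Pool.Agent.Helper47.NI.pr x x' p := by
  have h0 : bil (Mq c y) x x = 0 := by
    rw [← sf_eq]
    exact h.2.1
  obtain ⟨x', h1, h2, h3, h4⟩ := exists_other (Mq_symm c y) (isLine_x c (onX_ly h)) hx h0 (by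
    intro hg
    obtain ⟨p, hp⟩ := hG
    rw [gG_eq, hg] at hp
    exact hp rfl)
  refine ⟨x', h1, (onX_iff hm c x' y).2 ⟨fun r => ?_, ?_⟩, fun p => ?_⟩
  · rw [ly_eq]
    exact h4 (rw' c y r) (by rw [← ly_eq]; exact onX_ly h r) (fun j => dot_NN _ r j)
  · rw [sf_eq]
    exact h2
  · rw [gG_eq, h3]
    rfl

/-- A point over `y`. -/
theorem exists_fst [IsAlgClosed k] (hm : 1 ≤ m) (c : Ix m → k) {y : I m → k}
    (hG : ∃ p, gG c y p ≠ 0) : ∃ x, x ≠ 0 ∧ OnX c x y := by
  obtain ⟨x, h1, h2, h3⟩ := exists_pt (Mq_symm c y) (NN_anti (rw' c y)) (NN_diag (rw' c y)) (by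
    intro hN
    obtain ⟨p, hp⟩ := hG
    rw [gG_eq, hN, gram_zero] at hp
    exact hp rfl)
  refine ⟨x, h1, (onX_iff hm c x y).2 ⟨fun r => ?_, ?_⟩⟩
  · rw [ly_eq]
    exact h3 _ (fun j => dot_NN _ r j)
  · rw [sf_eq]
    exact h2

/-- The two double coverings. -/
noncomputable def dblX [IsAlgClosed k] (hm : 1 ≤ m) (c : Ix m → k) :
    Pool.Agent.Helper47.NI.Dbl k (m + 2) (2 * m + 3) where
  G := cG c
  G' := cG (swc c)
  hG := isHomogeneous_cG hm c
  hG' := isHomogeneous_cG hm (swc c)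
  S := {z | z.1 ≠ 0 ∧ z.2 ≠ 0 ∧ OnX c z.1 z.2}
  ne1 := fun h => h.1
  ne2 := fun h => h.2.1
  sx := by
    rintro x y ⟨hx, hy, h⟩ hp
    simp only [eval_cG] at hp ⊢
    obtain ⟨x', h1, h2, h3⟩ := exists_snd hm c hx h hp
    exact ⟨x', ⟨h1, hy, h2⟩, h3⟩
  sy := by
    rintro x y ⟨hx, hy, h⟩ hp
    simp only [eval_cG] at hp ⊢
    obtain ⟨y', h1, h2, h3⟩ := exists_snd hm (swc c) hy ((onX_sw c x y).2 h) hp
    exact ⟨y', ⟨hx, h1, (onX_sw c x y').1 h2⟩, h3⟩
  ex := by
    rintro y hy hp
    simp only [eval_cG] at hp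
    obtain ⟨x, h1, h2⟩ := exists_fst hm c hp
    exact ⟨x, h1, hy, h2⟩
  ex' := by
    rintro x hx hp
    simp only [eval_cG] at hp
    obtain ⟨y, h1, h2⟩ := exists_fst hm (swc c) hp
    exact ⟨y, hx, h1, (onX_sw c x y).1 h2⟩

theorem dblX_G [IsAlgClosed k] (hm : 1 ≤ m) (c : Ix m → k) : (dblX hm c).G = cG c := rfl

theorem dblX_G' [IsAlgClosed k] (hm : 1 ≤ m) (c : Ix m → k) : (dblX hm c).G' = cG (swc c) := rfl

theorem mem_dblX [IsAlgClosed k] (hm : 1 ≤ m) (c : Ix m → k) {x y : I m → k} :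
    (x, y) ∈ (dblX hm c).S ↔ x ≠ 0 ∧ y ≠ 0 ∧ OnX c x y := Iff.rfl

end field

end Pool.Agent.Helper23.H2
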