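import Pool.Agent.Helper23.H2.Smx

set_option autoImplicit false
set_option linter.unusedVariables false
set_option linter.unusedSectionVars false

/-!
# Type 2: the density hypothesis for general coefficients, all `m ≥ 2`
-/

namespace Pool.Agent.Helper23.H2

open MvPolynomial
open Pool.Agent.Helper28.HN (I cr)
open Pool.Agent.Helper24.H2
open Pool.Agent.Helper76.CY (spec)
open Pool.Agent.Helper23.HNG (line line_smul finite_zeros exists_mu)

variable {m : ℕ}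

theorem hom_spec {k : Type*} [Field k] [Algebra ℚ k] (c : Ix m → k) {d : ℕ}
    {F : MvPolynomial (I m) (MvPolynomial (Ix m) ℚ)} (hF : F.IsHomogeneous d) :
    (spec (I m) c F).IsHomogeneous d := hF.map _

theorem uu_smul (hm : 1 ≤ m) {k : Type*} [Field k] [Algebra ℚ k] (a b : ℚ) (c : Ix m → k) (r : k)
    (x : I m → k) : uu a b c (r • x) = r ^ (2 * m + 3) * uu a b c x := by
  rw [← eval_uF, ← eval_uF,
    Pool.Agent.Helper63.NPD.eval_smul' (hom_spec c (isHomogeneous_uF hm a b))]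

theorem finite_sq {k : Type*} [Field k] (a : k) : {w : k | w ^ 2 = a}.Finite := by
  by_cases h : ∃ w0 : k, w0 ^ 2 = a
  · obtain ⟨w0, rfl⟩ := h
    refine Set.Finite.subset (Set.toFinite {w0, -w0}) fun w hw => ?_
    rcases sq_eq_sq_iff_eq_or_eq_neg.1 hw with h | h
    · exact Or.inl h
    · exact Or.inr h
  · refine Set.Finite.subset Set.finite_empty fun w hw => ?_
    exact h ⟨w, hw⟩

theorem dense_one (hm : 1 ≤ m) : ∃ Δ : MvPolynomial (Ix m) ℚ, Δ ≠ 0 ∧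
    ∀ (k : Type) [Field k] [IsAlgClosed k] [Algebra ℚ k] (c : Ix m → k), aeval c Δ ≠ 0 →
      (dblX (by omega : 1 ≤ m) c).Dense := by
  have hm1 : 1 ≤ m := by omega
  obtain ⟨F1, hF1⟩ := exists_nrm hm1 1 0
  have hc : (fun e => algebraMap ℚ (AlgebraicClosure ℚ) (sm m ℚ e)) =
      sm m (AlgebraicClosure ℚ) := funext fun e => map_sm (algebraMap ℚ (AlgebraicClosure ℚ)) e
  have h2 : (2 : AlgebraicClosure ℚ) ≠ 0 := two_ne_zero
  -- points over the line
  have hpt : ∀ z : Fin 2 → AlgebraicClosure ℚ, z ≠ 0 → ∃ x x' : I m → AlgebraicClosure ℚ,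
      x ≠ 0 ∧ x' ≠ 0 ∧ OnX (sm m (AlgebraicClosure ℚ)) x (line z) ∧
      OnX (sm m (AlgebraicClosure ℚ)) x' (line z) ∧
      ∀ p, gG (sm m (AlgebraicClosure ℚ)) (line z) p = Pool.Agent.Helper47.NI.pr x x' p := by
    intro z hz
    have hG := gG_line (m := m) hm hz
    obtain ⟨x, hx, h⟩ := exists_fst hm1 _ hG
    obtain ⟨x', hx', h', hp⟩ := exists_snd hm1 _ hx h hG
    exact ⟨x, x', hx, hx', h, h', hp⟩
  have hfin : {τ : AlgebraicClosure ℚ | eval (line ![1, τ])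
      (spec (I m) (sm m (AlgebraicClosure ℚ)) F1) = 0}.Finite := by
    apply finite_zeros _ 0
    have hz : (![1, 0] : Fin 2 → AlgebraicClosure ℚ) ≠ 0 := by
      intro h
      have := congrFun h 0
      simp at this
    obtain ⟨x, x', hx, hx', h, h', hp⟩ := hpt _ hz
    rw [(hF1.2 (AlgebraicClosure ℚ) (sm m (AlgebraicClosure ℚ)) _).2 x x' hp]
    have h0 : (![1, 0] : Fin 2 → AlgebraicClosure ℚ) 0 ≠ 0 := by simp
    have hτ : (![1, 0] : Fin 2 → AlgebraicClosure ℚ) 1 /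
      (![1, 0] : Fin 2 → AlgebraicClosure ℚ) 0 = 0 := by simp
    obtain ⟨a, ha, w, hw, rfl⟩ := pts_line hm hx h0 h
    obtain ⟨a', ha', w', hw', rfl⟩ := pts_line hm hx' h0 h'
    rw [hτ, zero_pow (by omega)] at hw hw'
    have hw0 := pow_eq_zero_iff two_ne_zero |>.1 hw
    have hw0' := pow_eq_zero_iff two_ne_zero |>.1 hw'
    rw [hτ, hw0, hw0', uu_smul hm1, uu_smul hm1]
    exact mul_ne_zero h2 (mul_ne_zero (mul_ne_zero (pow_ne_zero _ ha) (uu_Pt0 hm))
      (mul_ne_zero (pow_ne_zero _ ha') (uu_Pt0 hm)))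
  obtain ⟨μ, hμ⟩ := exists_mu (k := AlgebraicClosure ℚ)
    (⋃ τ ∈ {τ : AlgebraicClosure ℚ | eval (line ![1, τ])
      (spec (I m) (sm m (AlgebraicClosure ℚ)) F1) = 0},
      (fun w => (τ, w)) '' {w : AlgebraicClosure ℚ | w ^ 2 = τ ^ (2 * m + 3)})
    (hfin.biUnion fun τ _ => (finite_sq _).image _)
    (fun i => gG (swc (sm m (AlgebraicClosure ℚ))) (Pt m i.1 i.2) (0, 0))
    (fun i => gG (swc (sm m (AlgebraicClosure ℚ))) (Pt m i.1 i.2) (0, 1)) (by
      intro i hi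
      obtain ⟨τ, hτ, w, hw, rfl⟩ := Set.mem_iUnion₂.1 hi
      have h := H_ne (m := m) hm (show w ^ 2 = τ ^ (2 * m + 3) from hw)
      rwa [ix_zero, ix_one] at h)
  obtain ⟨F2, hF2⟩ := exists_nrm hm1 0 μ
  refine dense_of_line hm1 (sm m ℚ) hF1 hF2 ?_
  rw [hc]
  rintro z hz ⟨h3, h4⟩
  obtain ⟨x, x', hx, hx', h, h', hp⟩ := hpt z hz
  have e1 := h3
  rw [(hF1.2 (AlgebraicClosure ℚ) (sm m (AlgebraicClosure ℚ)) _).2 x x' hp] at e1
  rw [(hF2.2 (AlgebraicClosure ℚ) (sm m (AlgebraicClosure ℚ)) _).2 x x' hp] at h4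
  by_cases h0 : z 0 = 0
  · obtain ⟨a, ha, rfl⟩ := pts_line' hm hx hz h0 h
    obtain ⟨a', ha', rfl⟩ := pts_line' hm hx' hz h0 h'
    rw [uu_smul hm1, uu_smul hm1] at e1
    exact mul_ne_zero h2 (mul_ne_zero (mul_ne_zero (pow_ne_zero _ ha) (uu_el hm))
      (mul_ne_zero (pow_ne_zero _ ha') (uu_el hm))) e1
  · have h5 : eval (line ![1, z 1 / z 0]) (spec (I m) (sm m (AlgebraicClosure ℚ)) F1) = 0 := by
      rw [line_smul h0, Pool.Agent.Helper63.NPD.eval_smul' (hom_spec _ hF1.1)] at h3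
      exact (mul_eq_zero.1 h3).resolve_left (pow_ne_zero _ h0)
    have key : ∀ w : AlgebraicClosure ℚ, w ^ 2 = (z 1 / z 0) ^ (2 * m + 3) →
        uu 0 μ (sm m (AlgebraicClosure ℚ)) (Pt m (z 1 / z 0) w) ≠ 0 := by
      intro w hw
      have h6 := hμ (z 1 / z 0, w) (Set.mem_iUnion₂.2 ⟨z 1 / z 0, h5, w, hw, rfl⟩)
      rw [uu, map_zero, zero_mul, add_zero]
      exact h6
    obtain ⟨a, ha, w, hw, rfl⟩ := pts_line hm hx h0 h
    obtain ⟨a', ha', w', hw', rfl⟩ := pts_line hm hx' h0 h'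
    rw [uu_smul hm1, uu_smul hm1] at h4
    exact mul_ne_zero h2 (mul_ne_zero (mul_ne_zero (pow_ne_zero _ ha) (key w hw))
      (mul_ne_zero (pow_ne_zero _ ha') (key w' hw'))) h4

/-- The density hypotheses of both sides, for general coefficients. -/
theorem dense_both (hm : 1 ≤ m) : ∃ Δ : MvPolynomial (Ix m) ℚ, Δ ≠ 0 ∧
    ∀ (k : Type) [Field k] [IsAlgClosed k] [Algebra ℚ k] (c : Ix m → k), aeval c Δ ≠ 0 →
      (dblX (by omega : 1 ≤ m) c).Dense ∧ (dblX (by omega : 1 ≤ m) c).swap.Dense := by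
  obtain ⟨Δ, hΔ, h⟩ := dense_one hm
  have hinj : Function.Injective (sw : Ix m → Ix m) := fun a b hab => by
    rw [← sw_sw a, ← sw_sw b, hab]
  refine ⟨Δ * rename sw Δ, mul_ne_zero hΔ ?_, fun k _ _ _ c hc => ?_⟩
  · exact (rename_injective sw hinj).ne_iff' (map_zero _) |>.2 hΔ
  · rw [map_mul, aeval_rename] at hc
    exact ⟨h k c (left_ne_zero_of_mul hc),
      dense_swap _ c (h k (swc c) (right_ne_zero_of_mul hc))⟩

end Pool.Agent.Helper23.H2
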