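import Pool.Agent.Helper23.H2.Norm
import Pool.Agent.Helper23.HNG.Dens

set_option autoImplicit false
set_option linter.unusedVariables false
set_option linter.unusedSectionVars false

/-!
# The density hypothesis from two norms without common zero on one line
-/

namespace Pool.Agent.Helper23.H2

open MvPolynomial
open Pool.Agent.Helper28.HN (I cr)
open Pool.Agent.Helper24.H2
open Pool.Agent.Helper23.HNG (eval_zero cases3 line lineP isHomogeneous_lineP eval_lineP res
  isHomogeneous_res eval_res exists_zero_line)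
open Pool.Agent.Helper76.CY (spec exists_delta exists_common_zero coeff_spec)

variable {m : ℕ}

theorem spec_res {k : Type*} [Field k] [Algebra ℚ k] (c : Ix m → k)
    (F : MvPolynomial (I m) (MvPolynomial (Ix m) ℚ)) :
    spec (Fin 2) c (res F) = res (spec (I m) c F) := by
  have h : (spec (Fin 2) c).comp (aeval (lineP (MvPolynomial (Ix m) ℚ)) :
      MvPolynomial (I m) (MvPolynomial (Ix m) ℚ) →ₐ[MvPolynomial (Ix m) ℚ] _).toRingHom =
      ((aeval (lineP k) : MvPolynomial (I m) k →ₐ[k] _).toRingHom).comp (spec (I m) c) := by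
    apply MvPolynomial.ringHom_ext
    · intro r
      simp only [RingHom.comp_apply, AlgHom.toRingHom_eq_coe, RingHom.coe_coe, spec,
        MvPolynomial.aeval_C, MvPolynomial.map_C, MvPolynomial.algebraMap_eq]
    · intro i
      simp only [RingHom.comp_apply, AlgHom.toRingHom_eq_coe, RingHom.coe_coe, aeval_X, spec,
        map_X]
      revert i
      refine cases3 ?_ ?_ fun r => ?_
      · exact map_X _ 0
      · exact map_X _ 1
      · exact map_zero _
  exact DFunLike.congr_fun h F

theorem dense_core (hm : 1 ≤ m) {k : Type*} [Field k] [IsAlgClosed k] (c : Ix m → k)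
    {F1 F2 : MvPolynomial (I m) k} {d : ℕ} (hd : d ≠ 0) (h1 : F1.IsHomogeneous d)
    (h2 : F2.IsHomogeneous d)
    (hb1 : ∀ y, (∀ p, gG c y p = 0) → eval y F1 = 0)
    (hb2 : ∀ y, (∀ p, gG c y p = 0) → eval y F2 = 0)
    (hn1 : ∀ x x' y, (∀ p, gG c y p = Pool.Agent.Helper47.NI.pr x x' p) →
      (∀ p, gG (swc c) x p = 0) → eval y F1 = 0)
    (hn2 : ∀ x x' y, (∀ p, gG c y p = Pool.Agent.Helper47.NI.pr x x' p) →
      (∀ p, gG (swc c) x p = 0) → eval y F2 = 0)
    (hl : ∀ z : Fin 2 → k, z ≠ 0 → ¬ (eval (line z) F1 = 0 ∧ eval (line z) F2 = 0)) :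
    (dblX hm c).Dense := by
  have hne : F1 ≠ 0 ∨ F2 ≠ 0 := by
    by_contra hcon
    push Not at hcon
    refine hl (Pi.single 0 1) (by simp) ?_
    rw [hcon.1, hcon.2]
    simp
  have hrel : IsRelPrime F1 F2 := by
    intro w hw1 hw2
    have hhom : ∃ a, w.IsHomogeneous a := by
      rcases hne with h | h
      · obtain ⟨v, hv⟩ := hw1
        rw [hv] at h h1
        obtain ⟨a, b, ha, -, -⟩ := Pool.Agent.Helper47.NI.hom_factor h1 h
        exact ⟨a, ha⟩
      · obtain ⟨v, hv⟩ := hw2
        rw [hv] at h h2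
        obtain ⟨a, b, ha, -, -⟩ := Pool.Agent.Helper47.NI.hom_factor h2 h
        exact ⟨a, ha⟩
    have hw0 : w ≠ 0 := by
      rintro rfl
      rcases hne with h | h
      · exact h (zero_dvd_iff.1 hw1)
      · exact h (zero_dvd_iff.1 hw2)
    obtain ⟨a, ha⟩ := hhom
    by_cases ha0 : a = 0
    · subst ha0
      have h3 : w.totalDegree = 0 := by
        have := ha.totalDegree hw0
        exact this
      rw [totalDegree_eq_zero_iff_eq_C] at h3
      rw [h3]
      refine (isUnit_iff_ne_zero.2 ?_).map C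
      intro h4
      rw [h4, map_zero] at h3
      exact hw0 h3
    · exfalso
      obtain ⟨z, hz, h3⟩ := exists_zero_line ha ha0
      refine hl z hz ⟨?_, ?_⟩
      · obtain ⟨v, rfl⟩ := hw1
        rw [map_mul, h3, zero_mul]
      · obtain ⟨v, rfl⟩ := hw2
        rw [map_mul, h3, zero_mul]
  refine Pool.Agent.Helper47.NI.Dbl.dense_of_coprime (dblX hm c) F1 F2 hrel ?_
  rintro y (rfl | hy)
  · exact ⟨eval_zero h1 hd, eval_zero h2 hd⟩
  · unfold Pool.Agent.Helper47.NI.Dbl.Good at hy
    rw [not_and_or] at hy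
    rcases hy with hy | hy
    · push Not at hy
      have h3 : ∀ p, gG c y p = 0 := fun p => by
        have := hy p
        rwa [dblX_G, eval_cG] at this
      exact ⟨hb1 y h3, hb2 y h3⟩
    · push Not at hy
      obtain ⟨x, hx, hx2⟩ := hy
      have h4 : ∀ p, gG (swc c) x p = 0 := fun p => by
        have := hx2 p
        rwa [dblX_G', eval_cG] at this
      by_cases h3 : ∀ p, gG c y p = 0
      · exact ⟨hb1 y h3, hb2 y h3⟩
      · push Not at h3
        obtain ⟨x', -, -, h5⟩ := exists_snd hm c hx.1 hx.2.2 h3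
        exact ⟨hn1 x x' y h5 h4, hn2 x x' y h5 h4⟩

/-- `F` is the norm of `uu a b` with generic coefficients. -/
def IsNrm (m : ℕ) (a b : ℚ) (F : MvPolynomial (I m) (MvPolynomial (Ix m) ℚ)) : Prop :=
  F.IsHomogeneous ((2 * m + 3) * (2 * m + 3)) ∧
    ∀ (k : Type) [Field k] [Algebra ℚ k] (c : Ix m → k) (y : I m → k),
      ((∀ p, gG c y p = 0) → eval y (spec (I m) c F) = 0) ∧
      ∀ x x' : I m → k, (∀ p, gG c y p = Pool.Agent.Helper47.NI.pr x x' p) →
        eval y (spec (I m) c F) = 2 * (uu a b c x * uu a b c x')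

theorem dense_of_line (hm : 1 ≤ m) (c0 : Ix m → ℚ) {a1 b1 a2 b2 : ℚ}
    {F1 F2 : MvPolynomial (I m) (MvPolynomial (Ix m) ℚ)} (h1 : IsNrm m a1 b1 F1)
    (h2 : IsNrm m a2 b2 F2)
    (hl : ∀ z : Fin 2 → AlgebraicClosure ℚ, z ≠ 0 →
      ¬ (eval (line z) (spec (I m) (fun e => algebraMap ℚ (AlgebraicClosure ℚ) (c0 e)) F1) = 0 ∧
        eval (line z) (spec (I m) (fun e => algebraMap ℚ (AlgebraicClosure ℚ) (c0 e)) F2) = 0)) :
    ∃ Δ : MvPolynomial (Ix m) ℚ, Δ ≠ 0 ∧ ∀ (k : Type) [Field k] [IsAlgClosed k] [Algebra ℚ k]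
      (c : Ix m → k), aeval c Δ ≠ 0 → (dblX hm c).Dense := by
  let F : Fin 2 → MvPolynomial (Fin 2) (MvPolynomial (Ix m) ℚ) := ![res F1, res F2]
  obtain ⟨Δ, hΔ, h⟩ := exists_delta (Ω := AlgebraicClosure ℚ) F
    (fun _ => (2 * m + 3) * (2 * m + 3)) (by
      intro i
      fin_cases i
      · exact isHomogeneous_res h1.1
      · exact isHomogeneous_res h2.1) c0 (by
      intro z hz
      by_contra hz0
      have e : ∀ G : MvPolynomial (I m) (MvPolynomial (Ix m) ℚ),
          aeval z (spec (Fin 2) c0 (res G)) = eval (line z)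
            (spec (I m) (fun e => algebraMap ℚ (AlgebraicClosure ℚ) (c0 e)) G) := by
        intro G
        rw [← eval_res, ← spec_res]
        have e2 : spec (Fin 2) (fun e => algebraMap ℚ (AlgebraicClosure ℚ) (c0 e)) (res G) =
            MvPolynomial.map (algebraMap ℚ (AlgebraicClosure ℚ)) (spec (Fin 2) c0 (res G)) := by
          have e3 : (aeval (fun e => algebraMap ℚ (AlgebraicClosure ℚ) (c0 e)) :
              MvPolynomial (Ix m) ℚ →ₐ[ℚ] AlgebraicClosure ℚ).toRingHom =
              (algebraMap ℚ (AlgebraicClosure ℚ)).comp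
                (aeval c0 : MvPolynomial (Ix m) ℚ →ₐ[ℚ] ℚ).toRingHom := by
            apply MvPolynomial.ringHom_ext
            · intro r
              simp
            · intro i
              simp
          rw [spec, spec, map_map, e3]
        rw [e2, eval_map, aeval_def]
      refine hl z hz0 ⟨?_, ?_⟩
      · rw [← e]
        exact hz 0
      · rw [← e]
        exact hz 1)
  refine ⟨Δ, fun h0 => hΔ (by rw [h0, map_zero]), fun k _ _ _ c hc => ?_⟩
  have h3 := h k c hc
  refine dense_core hm c (F1 := spec (I m) c F1) (F2 := spec (I m) c F2)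
    (d := (2 * m + 3) * (2 * m + 3)) (by positivity) (h1.1.map _) (h2.1.map _)
    (fun y hy => (h1.2 k c y).1 hy) (fun y hy => (h2.2 k c y).1 hy)
    (fun x x' y hy hx => ?_) (fun x x' y hy hx => ?_) (fun z hz hcon => hz (h3 z ?_))
  · rw [(h1.2 k c y).2 x x' hy]
    simp [uu, hx]
  · rw [(h2.2 k c y).2 x x' hy]
    simp [uu, hx]
  · intro i
    fin_cases i
    · change eval z (spec (Fin 2) c (res F1)) = 0
      rw [spec_res, eval_res]
      exact hcon.1
    · change eval z (spec (Fin 2) c (res F2)) = 0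
      rw [spec_res, eval_res]
      exact hcon.2

/-- The density hypothesis for the exchanged family. -/
theorem dense_swap (hm : 1 ≤ m) {k : Type*} [Field k] [IsAlgClosed k] (c : Ix m → k)
    (h : (dblX hm (swc c)).Dense) : (dblX hm c).swap.Dense := by
  intro w hw F hF
  refine h w hw F fun y hy hg hyw => hF y hy ?_ hyw
  obtain ⟨h1, h2⟩ := hg
  refine ⟨h1, fun x hx => ?_⟩
  have h3 : (x, y) ∈ (dblX hm (swc c)).S := ⟨hx.2.1, hx.1, (onX_sw c y x).2 hx.2.2⟩
  obtain ⟨p, hp⟩ := h2 x h3
  refine ⟨p, ?_⟩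
  rw [dblX_G', swc_swc] at hp
  exact hp

end Pool.Agent.Helper23.H2
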