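import Pool.Agent.Helper23.H2.Line

set_option autoImplicit false
set_option linter.unusedVariables false
set_option linter.unusedSectionVars false

/-!
# Type 2, the sample: `L_r = x_r y_1 - x_(r+1) y_0 + x_0 y_(r+2) + x_(m+1) y_(r+3)` (`r ≤ m - 2`),
`S = x_(m+1)^2 y_0 - x_m^2 y_1 + x_0^2 y_(m+1)`,
`Q = x_(m-1) y_1^2 - x_m y_0^2 + (x_0 + x_(m+1)) y_2^2`
-/

namespace Pool.Agent.Helper23.H2

open MvPolynomial
open Pool.Agent.Helper28.HN (I cr)
open Pool.Agent.Helper24.H2
open Pool.Agent.Helper37.RP (IsLine)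
open Pool.Agent.Helper23.HNG (NN NN_ne NN_anti NN_diag isLine_NN dot_NN dd sum_dd sum2 line line_zero
  line_one line_ge)

variable {m : ℕ}

/-- The index `i`. -/
def ix (i : ℕ) : I m := Fin.ofNat (m + 2) i

theorem ix_val {i : ℕ} (h : i < m + 2) : (ix i : I m).val = i := by
  unfold ix
  exact Nat.mod_eq_of_lt h

theorem ix_self (j : I m) : ix j.val = j := Fin.ext (ix_val j.isLt)

theorem ix_zero : (ix 0 : I m) = 0 := Fin.ext (ix_val (by omega))

theorem ix_one : (ix 1 : I m) = 1 := Fin.ext (ix_val (by omega))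

theorem ix_last : (ix (m + 1) : I m) = Fin.last (m + 1) := Fin.ext (ix_val (by omega))

theorem ix_ne {i j : ℕ} (hi : i < m + 2) (hj : j < m + 2) (h : i ≠ j) : (ix i : I m) ≠ ix j := by
  intro e
  apply h
  have h2 := congrArg Fin.val e
  rwa [ix_val hi, ix_val hj] at h2

theorem ext_ix {α : Type*} {v w : I m → α} (h : ∀ i, i < m + 2 → v (ix i) = w (ix i)) : v = w := by
  funext j
  have := h j.val j.isLt
  rwa [ix_self] at this

theorem line_ix {S : Type*} [Zero S] (z : Fin 2 → S) {i : ℕ} (h : 2 ≤ i) (h2 : i < m + 2) :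
    line z (ix i : I m) = 0 := line_ge z (by rw [ix_val h2]; exact h)

section sample

variable {S : Type*} [CommRing S]

theorem sum3 (a b c : I m) (x y z : I m → S) :
    ∑ i, ∑ j, ∑ k, dd a i * dd b j * dd c k * x i * y j * z k = x a * y b * z c := by
  have h : ∀ i, ∑ j, ∑ k, dd a i * dd b j * dd c k * x i * y j * z k =
      dd a i * (x i * (y b * z c)) := by
    intro i
    have h2 := sum2 b c y z
    calc _ = ∑ j, ∑ k, dd a i * x i * (dd b j * dd c k * y j * z k) :=
          Finset.sum_congr rfl fun j _ => Finset.sum_congr rfl fun k _ => by ring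
      _ = dd a i * x i * ∑ j, ∑ k, dd b j * dd c k * y j * z k := by
          simp only [← Finset.mul_sum]
      _ = _ := by
          rw [h2]
          ring
  simp only [h]
  rw [sum_dd a (fun i => x i * (y b * z c))]
  ring

variable (m S) in
/-- The sample. -/
def sm : Ix m → S
  | .inl (r, i, j) => dd (ix r.1.val) i * dd (ix 1) j - dd (ix (r.1.val + 1)) i * dd (ix 0) j +
      dd (ix 0) i * dd (ix (r.1.val + 2)) j + dd (ix (m + 1)) i * dd (ix (r.1.val + 3)) j
  | .inr (.inl (i, j, k)) => dd (ix (m + 1)) i * dd (ix (m + 1)) j * dd (ix 0) k -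
      dd (ix m) i * dd (ix m) j * dd (ix 1) k + dd (ix 0) i * dd (ix 0) j * dd (ix (m + 1)) k
  | .inr (.inr (i, j, k)) => dd (ix (m - 1)) i * dd (ix 1) j * dd (ix 1) k -
      dd (ix m) i * dd (ix 0) j * dd (ix 0) k + dd (ix 0) i * dd (ix 2) j * dd (ix 2) k +
      dd (ix (m + 1)) i * dd (ix 2) j * dd (ix 2) k

theorem bf_sm (r : Bi m) (x y : I m → S) : bf (sm m S) r x y =
    x (ix r.1.val) * y (ix 1) - x (ix (r.1.val + 1)) * y (ix 0) +
      x (ix 0) * y (ix (r.1.val + 2)) + x (ix (m + 1)) * y (ix (r.1.val + 3)) := by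
  unfold bf sm
  simp only [add_mul, sub_mul, Finset.sum_add_distrib, Finset.sum_sub_distrib, sum2]

theorem sf_sm (x x' y : I m → S) : sf (sm m S) x x' y =
    2 * (x (ix (m + 1)) * x' (ix (m + 1)) * y (ix 0) - x (ix m) * x' (ix m) * y (ix 1) +
      x (ix 0) * x' (ix 0) * y (ix (m + 1))) := by
  have h : ∀ i j k : I m, (sm m S (.inr (.inl (i, j, k))) + sm m S (.inr (.inl (j, i, k)))) * x i *
      x' j * y k =
      2 * (dd (ix (m + 1)) i * dd (ix (m + 1)) j * dd (ix 0) k * x i * x' j * y k) -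
      2 * (dd (ix m) i * dd (ix m) j * dd (ix 1) k * x i * x' j * y k) +
      2 * (dd (ix 0) i * dd (ix 0) j * dd (ix (m + 1)) k * x i * x' j * y k) := by
    intro i j k
    simp only [sm]
    ring
  unfold sf
  simp only [h, Finset.sum_add_distrib, Finset.sum_sub_distrib, ← Finset.mul_sum, sum3]
  ring

theorem tf_sm (x y y' : I m → S) : tf (sm m S) x y y' =
    2 * (x (ix (m - 1)) * y (ix 1) * y' (ix 1) - x (ix m) * y (ix 0) * y' (ix 0) +
      (x (ix 0) + x (ix (m + 1))) * y (ix 2) * y' (ix 2)) := by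
  have h : ∀ i j k : I m, (sm m S (.inr (.inr (i, j, k))) + sm m S (.inr (.inr (i, k, j)))) * x i *
      y j * y' k =
      2 * (dd (ix (m - 1)) i * dd (ix 1) j * dd (ix 1) k * x i * y j * y' k) -
      2 * (dd (ix m) i * dd (ix 0) j * dd (ix 0) k * x i * y j * y' k) +
      2 * (dd (ix 0) i * dd (ix 2) j * dd (ix 2) k * x i * y j * y' k) +
      2 * (dd (ix (m + 1)) i * dd (ix 2) j * dd (ix 2) k * x i * y j * y' k) := by
    intro i j k
    simp only [sm]
    ring
  unfold tf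
  simp only [h, Finset.sum_add_distrib, Finset.sum_sub_distrib, ← Finset.mul_sum, sum3]
  ring

theorem map_sm {T : Type*} [CommRing T] (f : S →+* T) (e : Ix m) : f (sm m S e) = sm m T e := by
  have h : ∀ a i : I m, f (dd a i) = dd a i := by
    intro a i
    unfold dd
    split_ifs <;> simp
  rcases e with ⟨r, i, j⟩ | ⟨i, j, k⟩ | ⟨i, j, k⟩ <;>
    simp only [sm, map_add, map_sub, map_mul, h]

end sample

section line

variable {k : Type*} [Field k]

theorem bf_line (r : Bi m) (x : I m → k) (z : Fin 2 → k) : bf (sm m k) r x (line z) =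
    x (ix r.1.val) * z 1 - x (ix (r.1.val + 1)) * z 0 := by
  have hr := r.2
  rw [bf_sm, ix_zero, ix_one, line_zero, line_one, line_ix z (by omega) (by omega),
    line_ix z (by omega) (by omega)]
  ring

theorem tf_line (hm : 1 ≤ m) (x : I m → k) (z : Fin 2 → k) : tf (sm m k) x (line z) (line z) =
    2 * (x (ix (m - 1)) * z 1 ^ 2 - x (ix m) * z 0 ^ 2) := by
  rw [tf_sm, ix_zero, ix_one, line_zero, line_one, line_ix z (by omega) (by omega)]
  ring

theorem sf_line (hm : 1 ≤ m) (x x' : I m → k) (z : Fin 2 → k) : sf (sm m k) x x' (line z) =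
    2 * (x (ix (m + 1)) * x' (ix (m + 1)) * z 0 - x (ix m) * x' (ix m) * z 1) := by
  rw [sf_sm, ix_zero, ix_one, line_zero, line_one, line_ix z (by omega) (by omega)]
  ring

/-- The equations over the line. -/
theorem eqs_line [CharZero k] (hm : 1 ≤ m) {x : I m → k} {z : Fin 2 → k}
    (h : ∀ r, ly (sm m k) r x (line z) = 0) :
    (∀ i, i + 1 < m → x (ix i) * z 1 = x (ix (i + 1)) * z 0) ∧
      x (ix (m - 1)) * z 1 ^ 2 = x (ix m) * z 0 ^ 2 := by
  constructor
  · intro i hi
    have h1 := h ⟨i, by omega⟩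
    unfold ly at h1
    rw [dif_pos hi, bf_line] at h1
    exact sub_eq_zero.1 h1
  · have h1 := h ⟨m - 1, by omega⟩
    unfold ly at h1
    rw [dif_neg (by simp only; omega), tf_line hm] at h1
    exact sub_eq_zero.1 ((mul_eq_zero.1 h1).resolve_left two_ne_zero)

/-- Recursion. -/
theorem rec_line [CharZero k] (hm : 1 ≤ m) {x : I m → k} {z : Fin 2 → k} (hz : z 0 ≠ 0)
    (h : ∀ r, ly (sm m k) r x (line z) = 0) :
    (∀ i, i < m → x (ix i) = (z 1 / z 0) ^ i * x (ix 0)) ∧
      x (ix m) = (z 1 / z 0) ^ (m + 1) * x (ix 0) := by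
  obtain ⟨h1, h2⟩ := eqs_line hm h
  have h3 : ∀ i, i < m → x (ix i) = (z 1 / z 0) ^ i * x (ix 0) := by
    intro i
    induction i with
    | zero =>
      intro _
      rw [pow_zero, one_mul]
    | succ i ih =>
      intro hi
      have h4 := h1 i hi
      rw [ih (by omega)] at h4
      rw [pow_succ]
      field_simp
      field_simp at h4
      linear_combination -h4
  refine ⟨h3, ?_⟩
  rw [h3 (m - 1) (by omega)] at h2
  obtain ⟨n, rfl⟩ : ∃ n, m = n + 1 := ⟨m - 1, by omega⟩
  rw [Nat.add_sub_cancel] at h2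
  rw [pow_succ, pow_succ]
  field_simp
  field_simp at h2
  linear_combination -h2

/-- Kernel over the line, first case. -/
theorem ker_line [CharZero k] (hm : 1 ≤ m) {v : I m → k} {z : Fin 2 → k} (hz : z 0 ≠ 0)
    (h : ∀ r, ly (sm m k) r v (line z) = 0) (h0 : v (ix 0) = 0) (h1 : v (ix (m + 1)) = 0) :
    v = 0 := by
  obtain ⟨h2, h3⟩ := rec_line hm hz h
  rw [h0, mul_zero] at h3
  refine ext_ix fun i hi => ?_
  rw [Pi.zero_apply]
  rcases Nat.lt_or_ge i m with h4 | h4
  · rw [h2 i h4, h0, mul_zero]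
  · have h5 : i = m ∨ i = m + 1 := by omega
    rcases h5 with rfl | rfl
    · exact h3
    · exact h1

/-- Kernel over the line, second case. -/
theorem ker_line' [CharZero k] (hm : 1 ≤ m) {v : I m → k} {z : Fin 2 → k} (hz : z 0 = 0)
    (hz1 : z 1 ≠ 0) (h : ∀ r, ly (sm m k) r v (line z) = 0) {i : ℕ} (hi : i < m) :
    v (ix i) = 0 := by
  obtain ⟨h2, h3⟩ := eqs_line hm h
  rcases Nat.lt_or_ge (i + 1) m with h4 | h4
  · have h5 := h2 i h4
    rw [hz, mul_zero] at h5
    exact (mul_eq_zero.1 h5).resolve_right hz1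
  · have h5 : i = m - 1 := by omega
    rw [h5]
    rw [hz, zero_pow two_ne_zero, mul_zero] at h3
    exact (mul_eq_zero.1 h3).resolve_right (pow_ne_zero 2 hz1)

theorem z1_ne {z : Fin 2 → k} (hz : z ≠ 0) (h0 : z 0 = 0) : z 1 ≠ 0 := by
  intro h1
  apply hz
  funext i
  fin_cases i
  · exact h0
  · exact h1

/-- The non-zero form over the points of the line. -/
theorem gG_line [CharZero k] (hm : 1 ≤ m) {z : Fin 2 → k} (hz : z ≠ 0) :
    ∃ p, gG (sm m k) (line z) p ≠ 0 := by
  have hdot : ∀ (r : Fin m) (j : I m),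
      ly (sm m k) r (fun i => NN (rw' (sm m k) (line z)) i j) (line z) = 0 := by
    intro r j
    rw [ly_eq]
    exact dot_NN _ r j
  have h4 : (4 : k) ≠ 0 := by norm_num
  have hg : ∀ a b, gG (sm m k) (line z) (a, b) =
      2 * sf (sm m k) (fun i => NN (rw' (sm m k) (line z)) i a)
        (fun i => NN (rw' (sm m k) (line z)) i b) (line z) := fun a b => rfl
  by_cases h0 : z 0 = 0
  · have h1 := z1_ne hz h0
    refine ⟨(ix (m + 1), ix (m + 1)), ?_⟩
    have h2 : NN (rw' (sm m k) (line z)) (ix m) (ix (m + 1)) ≠ 0 := by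
      apply NN_ne
      intro v hv1 hv2 hv3
      have hv4 : ∀ r, ly (sm m k) r v (line z) = 0 := fun r => by
        rw [ly_eq]
        exact hv3 r
      refine ext_ix fun i hi => ?_
      rw [Pi.zero_apply]
      rcases Nat.lt_or_ge i m with h5 | h5
      · exact ker_line' hm h0 h1 hv4 h5
      · have h6 : i = m ∨ i = m + 1 := by omega
        rcases h6 with rfl | rfl
        · exact hv1
        · exact hv2
    rw [hg, sf_line hm, h0]
    have h5 : (2 : k) * (2 * (NN (rw' (sm m k) (line z)) (ix (m + 1)) (ix (m + 1)) *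
        NN (rw' (sm m k) (line z)) (ix (m + 1)) (ix (m + 1)) * 0 -
        NN (rw' (sm m k) (line z)) (ix m) (ix (m + 1)) *
        NN (rw' (sm m k) (line z)) (ix m) (ix (m + 1)) * z 1)) =
        -(4 * (NN (rw' (sm m k) (line z)) (ix m) (ix (m + 1)) ^ 2 * z 1)) := by
      ring
    rw [h5]
    exact neg_ne_zero.2 (mul_ne_zero h4 (mul_ne_zero (pow_ne_zero 2 h2) h1))
  · refine ⟨(ix 0, ix 0), ?_⟩
    have h2 : NN (rw' (sm m k) (line z)) (ix (m + 1)) (ix 0) ≠ 0 := by
      apply NN_ne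
      intro v hv1 hv2 hv3
      exact ker_line hm h0 (fun r => by rw [ly_eq]; exact hv3 r) hv2 hv1
    have h5 : NN (rw' (sm m k) (line z)) (ix m) (ix 0) = 0 := by
      have h6 := (rec_line (x := fun i => NN (rw' (sm m k) (line z)) i (ix 0)) hm h0
        (fun r => hdot r (ix 0))).2
      simp only [NN_diag, mul_zero] at h6
      exact h6
    rw [hg, sf_line hm, h5]
    have h3 : (2 : k) * (2 * (NN (rw' (sm m k) (line z)) (ix (m + 1)) (ix 0) *
        NN (rw' (sm m k) (line z)) (ix (m + 1)) (ix 0) * z 0 - 0 * 0 * z 1)) =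
        4 * (NN (rw' (sm m k) (line z)) (ix (m + 1)) (ix 0) ^ 2 * z 0) := by
      ring
    rw [h3]
    exact mul_ne_zero h4 (mul_ne_zero (pow_ne_zero 2 h2) h0)

/-- The points `(1, τ, .., τ^(m-1), τ^(m+1), w)`. -/
def Pt (m : ℕ) (τ w : k) : I m → k :=
  fun i => if i.val < m then τ ^ i.val else if i.val = m then τ ^ (m + 1) else w

theorem Pt_lt {τ w : k} {i : ℕ} (hi : i < m) : Pt m τ w (ix i) = τ ^ i := by
  unfold Pt
  rw [ix_val (by omega), if_pos hi]

theorem Pt_m {τ w : k} : Pt m τ w (ix m) = τ ^ (m + 1) := by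
  unfold Pt
  rw [ix_val (by omega), if_neg (lt_irrefl m), if_pos rfl]

theorem Pt_last {τ w : k} : Pt m τ w (ix (m + 1)) = w := by
  unfold Pt
  rw [ix_val (by omega), if_neg (by omega), if_neg (by omega)]

/-- The points over a point of the line, first case. -/
theorem pts_line (hm : 1 ≤ m) [CharZero k] {x : I m → k} {z : Fin 2 → k} (hx : x ≠ 0)
    (hz : z 0 ≠ 0) (h : OnX (sm m k) x (line z)) :
    ∃ a : k, a ≠ 0 ∧ ∃ w : k, w ^ 2 = (z 1 / z 0) ^ (2 * m + 3) ∧
      x = a • Pt m (z 1 / z 0) w := by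
  obtain ⟨h1, h2⟩ := rec_line hm hz (fun r => onX_ly h r)
  have h3 := h.2.1
  rw [sf_line hm, h2] at h3
  have h4 := (mul_eq_zero.1 h3).resolve_left two_ne_zero
  have h5 : x (ix (m + 1)) ^ 2 = (z 1 / z 0) ^ (2 * m + 3) * x (ix 0) ^ 2 := by
    have h6 : (z 1 / z 0) * z 0 = z 1 := div_mul_cancel₀ _ hz
    have h7 : z 0 * (x (ix (m + 1)) ^ 2 - (z 1 / z 0) ^ (2 * m + 3) * x (ix 0) ^ 2) = 0 := by
      have e : (z 1 / z 0) ^ (2 * m + 3) = ((z 1 / z 0) ^ (m + 1)) ^ 2 * (z 1 / z 0) := by ring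
      rw [e]
      linear_combination h4 - ((z 1 / z 0) ^ (m + 1) * x (ix 0)) ^ 2 * h6
    exact sub_eq_zero.1 ((mul_eq_zero.1 h7).resolve_left hz)
  have h0 : x (ix 0) ≠ 0 := by
    intro h0
    apply hx
    apply ker_line hm hz (fun r => onX_ly h r) h0
    rw [h0, zero_pow two_ne_zero, mul_zero] at h5
    exact pow_eq_zero_iff two_ne_zero |>.1 h5
  refine ⟨x (ix 0), h0, x (ix (m + 1)) / x (ix 0), ?_, ?_⟩
  · rw [div_pow, h5, mul_div_assoc, div_self (pow_ne_zero 2 h0), mul_one]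
  · refine ext_ix fun i hi => ?_
    rw [Pi.smul_apply, smul_eq_mul]
    rcases Nat.lt_or_ge i m with h6 | h6
    · rw [Pt_lt h6, h1 i h6, mul_comm]
    · have h7 : i = m ∨ i = m + 1 := by omega
      rcases h7 with rfl | rfl
      · rw [Pt_m, h2, mul_comm]
      · rw [Pt_last, mul_div_cancel₀ _ h0]

/-- The points over a point of the line, second case. -/
theorem pts_line' (hm : 1 ≤ m) [CharZero k] {x : I m → k} {z : Fin 2 → k} (hx : x ≠ 0)
    (hz : z ≠ 0) (hz0 : z 0 = 0) (h : OnX (sm m k) x (line z)) :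
    ∃ a : k, a ≠ 0 ∧ x = a • (Pi.single (ix (m + 1)) 1 : I m → k) := by
  have hz1 := z1_ne hz hz0
  have h1 : x (ix m) = 0 := by
    have h3 := h.2.1
    rw [sf_line hm, hz0] at h3
    have h4 := (mul_eq_zero.1 h3).resolve_left two_ne_zero
    have h5 : x (ix m) ^ 2 * z 1 = 0 := by linear_combination -h4
    exact pow_eq_zero_iff two_ne_zero |>.1 ((mul_eq_zero.1 h5).resolve_right hz1)
  have h5 : x = x (ix (m + 1)) • (Pi.single (ix (m + 1)) 1 : I m → k) := by
    refine ext_ix fun i hi => ?_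
    rw [Pi.smul_apply, smul_eq_mul]
    rcases Nat.lt_or_ge i m with h6 | h6
    · rw [ker_line' hm hz0 hz1 (fun r => onX_ly h r) h6,
        Pi.single_eq_of_ne (ix_ne (by omega) (by omega) (by omega)), mul_zero]
    · have h7 : i = m ∨ i = m + 1 := by omega
      rcases h7 with rfl | rfl
      · rw [h1, Pi.single_eq_of_ne (ix_ne (by omega) (by omega) (by omega)), mul_zero]
      · rw [Pi.single_eq_same, mul_one]
  refine ⟨x (ix (m + 1)), ?_, h5⟩
  intro h6
  rw [h6, zero_smul] at h5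
  exact hx h5

end line

end Pool.Agent.Helper23.H2
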