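import Pool.Agent.Helper23.H2.Smp

set_option autoImplicit false
set_option linter.unusedVariables false
set_option linter.unusedSectionVars false

/-!
# Type 2: the forms of the sample over the points `(1, τ, .., τ^(m-1), τ^(m+1), w)` and
`(0, .., 0, 1)`
-/

namespace Pool.Agent.Helper23.H2

open MvPolynomial
open Pool.Agent.Helper28.HN (I cr)
open Pool.Agent.Helper24.H2
open Pool.Agent.Helper37.RP (IsLine)
open Pool.Agent.Helper23.HNG (NN NN_ne NN_anti NN_diag isLine_NN dot_NN line line_zero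
  line_one line_ge)

variable {m : ℕ} {k : Type*} [Field k]

theorem gG_x (x : I m → k) (a b : I m) : gG (swc (sm m k)) x (a, b) =
    4 * (x (ix (m - 1)) *
        (NN (rw' (swc (sm m k)) x) (ix 1) a * NN (rw' (swc (sm m k)) x) (ix 1) b) -
      x (ix m) *
        (NN (rw' (swc (sm m k)) x) (ix 0) a * NN (rw' (swc (sm m k)) x) (ix 0) b) +
      (x (ix 0) + x (ix (m + 1))) * (NN (rw' (swc (sm m k)) x) (ix 2) a *
        NN (rw' (swc (sm m k)) x) (ix 2) b)) := by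
  have h3 : gG (swc (sm m k)) x (a, b) =
      2 * sf (swc (sm m k)) (fun i => NN (rw' (swc (sm m k)) x) i a)
        (fun i => NN (rw' (swc (sm m k)) x) i b) x := rfl
  rw [h3, sf_sw, tf_sm]
  ring

theorem NNx_ne (x : I m → k) (a b : I m)
    (h : ∀ v : I m → k, v a = 0 → v b = 0 → (∀ r, lx (sm m k) r x v = 0) → v = 0) :
    NN (rw' (swc (sm m k)) x) a b ≠ 0 := by
  apply NN_ne
  intro z h1 h2 h3
  refine h z h1 h2 fun r => ?_
  rw [← ly_sw, ly_eq]
  exact h3 r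

/-- The equations over `x`. -/
theorem eqs_x [CharZero k] (hm : 1 ≤ m) {x v : I m → k} (h : ∀ r, lx (sm m k) r x v = 0) :
    (∀ i, i + 1 < m → x (ix i) * v (ix 1) - x (ix (i + 1)) * v (ix 0) + x (ix 0) * v (ix (i + 2)) +
      x (ix (m + 1)) * v (ix (i + 3)) = 0) ∧
    x (ix (m + 1)) ^ 2 * v (ix 0) - x (ix m) ^ 2 * v (ix 1) + x (ix 0) ^ 2 * v (ix (m + 1)) = 0 := by
  constructor
  · intro i hi
    have h1 := h ⟨i, by omega⟩
    unfold lx at h1
    rw [dif_pos hi, bf_sm] at h1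
    exact h1
  · have h1 := h ⟨m - 1, by omega⟩
    unfold lx at h1
    rw [dif_neg (by simp only; omega), sf_sm] at h1
    have h2 := (mul_eq_zero.1 h1).resolve_left two_ne_zero
    linear_combination h2

/-- The entry `(0,1)`. -/
theorem NN01_ne [CharZero k] (hm : 1 ≤ m) {x : I m → k} (hx : x (ix 0) ≠ 0) :
    NN (rw' (swc (sm m k)) x) (ix 0) (ix 1) ≠ 0 := by
  apply NNx_ne
  intro v h0 h1 h
  obtain ⟨h2, h3⟩ := eqs_x hm h
  have h4 : ∀ d, d + 1 ≤ m → v (ix (m + 1 - d)) = 0 := by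
    intro d
    induction d with
    | zero =>
      intro _
      rw [h0, h1, mul_zero, mul_zero, sub_zero, zero_add] at h3
      exact (mul_eq_zero.1 h3).resolve_left (pow_ne_zero 2 hx)
    | succ d ih =>
      intro hd
      have h5 := h2 (m - d - 2) (by omega)
      have e1 : m - d - 2 + 2 = m + 1 - (d + 1) := by omega
      have e2 : m - d - 2 + 3 = m + 1 - d := by omega
      rw [h0, h1, e1, e2, ih (by omega)] at h5
      have h6 : x (ix 0) * v (ix (m + 1 - (d + 1))) = 0 := by linear_combination h5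
      exact (mul_eq_zero.1 h6).resolve_left hx
  refine ext_ix fun i hi => ?_
  rw [Pi.zero_apply]
  rcases Nat.lt_or_ge i 2 with h5 | h5
  · have h6 : i = 0 ∨ i = 1 := by omega
    rcases h6 with rfl | rfl
    · exact h0
    · exact h1
  · have h6 := h4 (m + 1 - i) (by omega)
    have e : m + 1 - (m + 1 - i) = i := by omega
    rwa [e] at h6

/-- The entry `(2, 0)` at `τ = 0`. -/
theorem NN20_ne [CharZero k] (hm : 2 ≤ m) :
    NN (rw' (swc (sm m k)) (Pt m 0 0)) (ix 2) (ix 0) ≠ 0 := by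
  apply NNx_ne
  intro v h2 h0 h
  obtain ⟨h3, h4⟩ := eqs_x (by omega) h
  rw [Pt_lt (by omega : 0 < m), Pt_last] at h3
  rw [Pt_m, Pt_last, Pt_lt (by omega : 0 < m), h0, zero_pow (by omega : m + 1 ≠ 0)] at h4
  have h5 : v (ix 1) = 0 := by
    have h6 := h3 0 (by omega)
    rw [Pt_lt (by omega : 0 < m), h0, zero_add, h2] at h6
    simpa using h6
  have h6 : v (ix (m + 1)) = 0 := by simpa using h4
  refine ext_ix fun i hi => ?_
  rw [Pi.zero_apply]
  rcases Nat.lt_or_ge i 2 with h7 | h7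
  · have h8 : i = 0 ∨ i = 1 := by omega
    rcases h8 with rfl | rfl
    · exact h0
    · exact h5
  · rcases Nat.lt_or_ge m i with h8 | h8
    · have h9 : i = m + 1 := by omega
      rw [h9]
      exact h6
    · have h9 := h3 (i - 2) (by omega)
      have e : i - 2 + 2 = i := by omega
      rw [h0, h5, e] at h9
      simpa using h9

/-- The relation of the entries. -/
theorem NN_rel [CharZero k] (hm : 1 ≤ m) {τ w : k} (hw : w ^ 2 = τ ^ (2 * m + 3)) :
    NN (rw' (swc (sm m k)) (Pt m τ w)) (ix 2) (ix 1) =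
      τ * NN (rw' (swc (sm m k)) (Pt m τ w)) (ix 2) (ix 0) := by
  have h1 : IsLine (NN (rw' (swc (sm m k)) (Pt m τ w))) (line ![1, τ]) := by
    apply isLine_NN
    intro r
    have h2 : ∑ i, rw' (swc (sm m k)) (Pt m τ w) r i * (line ![1, τ] : I m → k) i =
        lx (sm m k) r (Pt m τ w) (line ![1, τ]) := by
      rw [← ly_sw, ly_eq]
    rw [h2]
    unfold lx
    split_ifs with h
    · rw [bf_line, Pt_lt (by simp only; omega), Pt_lt h, pow_succ]
      simp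
    · rw [sf_line hm, Pt_last, Pt_m]
      have e : (![1, τ] : Fin 2 → k) 0 = 1 := rfl
      have e2 : (![1, τ] : Fin 2 → k) 1 = τ := rfl
      rw [e, e2]
      have e3 : τ ^ (m + 1) * τ ^ (m + 1) * τ = τ ^ (2 * m + 3) := by ring
      rw [e3, ← hw]
      ring
  have h3 := h1.cyc (ix 0) (ix 1) (ix 2)
  rw [line_ix _ (le_refl 2) (by omega)] at h3
  rw [ix_zero, ix_one, line_zero, line_one] at h3
  have h5 := h1.anti 1 (ix 2)
  have e : (![1, τ] : Fin 2 → k) 0 = 1 := rfl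
  have e2 : (![1, τ] : Fin 2 → k) 1 = τ := rfl
  rw [e, e2] at h3
  rw [ix_zero, ix_one]
  linear_combination h5 - h3

theorem H00 (hm : 1 ≤ m) (τ w : k) : gG (swc (sm m k)) (Pt m τ w) (ix 0, ix 0) =
    4 * (τ ^ (m - 1) * NN (rw' (swc (sm m k)) (Pt m τ w)) (ix 0) (ix 1) ^ 2 +
      (1 + w) * NN (rw' (swc (sm m k)) (Pt m τ w)) (ix 2) (ix 0) ^ 2) := by
  rw [gG_x, Pt_lt (by omega : m - 1 < m), Pt_m, Pt_lt (by omega : 0 < m), Pt_last, NN_diag,
    NN_anti _ (ix 1) (ix 0)]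
  ring

/-- At `τ = 0` the form `(0, 0)` does not vanish. -/
theorem H00_ne [CharZero k] (hm : 1 ≤ m) :
    gG (swc (sm m k)) (Pt m 0 0) (ix 0, ix 0) ≠ 0 := by
  have h4 : (4 : k) ≠ 0 := by norm_num
  rw [H00 hm]
  rcases Nat.lt_or_ge 1 m with h2 | h2
  · rw [zero_pow (by omega : m - 1 ≠ 0), zero_mul, zero_add, add_zero, one_mul]
    exact mul_ne_zero h4 (pow_ne_zero 2 (NN20_ne h2))
  · have hm1 : m = 1 := by omega
    subst hm1
    have h1 : ∀ r, lx (sm 1 k) r (Pt 1 0 0)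
        (fun i => NN (rw' (swc (sm 1 k)) (Pt 1 0 0)) i (ix 0)) = 0 := by
      intro r
      rw [← ly_sw, ly_eq]
      exact dot_NN _ r (ix 0)
    have h3 := (eqs_x hm h1).2
    rw [Pt_last, Pt_m, Pt_lt (by omega : 0 < 1)] at h3
    have h5 : NN (rw' (swc (sm 1 k)) (Pt 1 0 0)) (ix 2) (ix 0) = 0 := by simpa using h3
    rw [h5]
    have h6 : NN (rw' (swc (sm 1 k)) (Pt 1 0 0)) (ix 0) (ix 1) ≠ 0 := by
      apply NN01_ne hm
      rw [Pt_lt (by omega : 0 < 1), pow_zero]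
      exact one_ne_zero
    have e : 4 * ((0 : k) ^ (1 - 1) * NN (rw' (swc (sm 1 k)) (Pt 1 0 0)) (ix 0) (ix 1) ^ 2 +
        (1 + 0) * 0 ^ 2) = 4 * NN (rw' (swc (sm 1 k)) (Pt 1 0 0)) (ix 0) (ix 1) ^ 2 := by
      simp
    rw [e]
    exact mul_ne_zero h4 (pow_ne_zero 2 h6)

theorem H01 [CharZero k] (hm : 1 ≤ m) {τ w : k} (hw : w ^ 2 = τ ^ (2 * m + 3)) :
    gG (swc (sm m k)) (Pt m τ w) (ix 0, ix 1) =
    4 * ((1 + w) * (τ * NN (rw' (swc (sm m k)) (Pt m τ w)) (ix 2) (ix 0) ^ 2)) := by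
  rw [gG_x, Pt_lt (by omega : m - 1 < m), Pt_m, Pt_lt (by omega : 0 < m), Pt_last, NN_diag,
    NN_diag, NN_rel hm hw]
  ring

theorem H11 [CharZero k] (hm : 1 ≤ m) {τ w : k} (hw : w ^ 2 = τ ^ (2 * m + 3)) :
    gG (swc (sm m k)) (Pt m τ w) (ix 1, ix 1) =
    4 * ((1 + w) * (τ * NN (rw' (swc (sm m k)) (Pt m τ w)) (ix 2) (ix 0)) ^ 2 -
      τ ^ (m + 1) * NN (rw' (swc (sm m k)) (Pt m τ w)) (ix 0) (ix 1) ^ 2) := by
  rw [gG_x, Pt_lt (by omega : m - 1 < m), Pt_m, Pt_lt (by omega : 0 < m), Pt_last, NN_diag,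
    NN_rel hm hw]
  ring

/-- Not both forms vanish. -/
theorem H_ne [CharZero k] (hm : 1 ≤ m) {τ w : k} (hw : w ^ 2 = τ ^ (2 * m + 3)) :
    ¬ (gG (swc (sm m k)) (Pt m τ w) (ix 0, ix 0) = 0 ∧
      gG (swc (sm m k)) (Pt m τ w) (ix 0, ix 1) = 0) := by
  rintro ⟨h0, h1⟩
  have h4 : (4 : k) ≠ 0 := by norm_num
  by_cases hτ : τ = 0
  · subst hτ
    have hw0 : w = 0 := by
      rw [zero_pow (by omega)] at hw
      exact pow_eq_zero_iff two_ne_zero |>.1 hw
    subst hw0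
    exact H00_ne hm h0
  · rw [H00 hm] at h0
    rw [H01 hm hw] at h1
    have h2 := (mul_eq_zero.1 h0).resolve_left h4
    have h3 := (mul_eq_zero.1 h1).resolve_left h4
    have h5 : (1 + w) * NN (rw' (swc (sm m k)) (Pt m τ w)) (ix 2) (ix 0) ^ 2 = 0 := by
      have h6 : τ * ((1 + w) * NN (rw' (swc (sm m k)) (Pt m τ w)) (ix 2) (ix 0) ^ 2) = 0 := by
        linear_combination h3
      exact (mul_eq_zero.1 h6).resolve_left hτ
    rw [h5, add_zero] at h2
    have h6 := (mul_eq_zero.1 h2).resolve_left (pow_ne_zero _ hτ)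
    refine NN01_ne (m := m) (x := Pt m τ w) hm ?_ (pow_eq_zero_iff two_ne_zero |>.1 h6)
    rw [Pt_lt (by omega : 0 < m), pow_zero]
    exact one_ne_zero

variable [Algebra ℚ k]

theorem uu_Pt0 [CharZero k] (hm : 1 ≤ m) : uu 1 0 (sm m k) (Pt m 0 0) ≠ 0 := by
  have hw : (0 : k) ^ 2 = 0 ^ (2 * m + 3) := by
    rw [zero_pow two_ne_zero, zero_pow (by omega)]
  have e0 := H00_ne (k := k) hm
  have e1 := H01 (k := k) hm hw
  have e2 := H11 (k := k) hm hw
  rw [ix_zero, ix_one] at e1 e2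
  rw [ix_zero] at e0
  rw [uu, e1, e2, zero_pow (by omega : m + 1 ≠ 0)]
  have e : gG (swc (sm m k)) (Pt m 0 0) (0, 0) +
      algebraMap ℚ k 1 * (4 * ((1 + 0) * (0 * NN (rw' (swc (sm m k)) (Pt m 0 0)) (ix 2) 0) ^ 2 -
        0 * NN (rw' (swc (sm m k)) (Pt m 0 0)) 0 1 ^ 2)) +
      algebraMap ℚ k 0 * (4 * ((1 + 0) *
        (0 * NN (rw' (swc (sm m k)) (Pt m 0 0)) (ix 2) 0 ^ 2))) =
      gG (swc (sm m k)) (Pt m 0 0) (0, 0) := by
    ring
  rw [e]
  exact e0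

theorem uu_el [CharZero k] (hm : 1 ≤ m) :
    uu 1 0 (sm m k) (Pi.single (ix (m + 1)) 1) ≠ 0 := by
  have h4 : (4 : k) ≠ 0 := by norm_num
  set x : I m → k := Pi.single (ix (m + 1)) 1 with hx
  have hl : x (ix (m + 1)) = 1 := Pi.single_eq_same _ _
  have h0 : ∀ i, i < m + 1 → x (ix i) = 0 := fun i hi =>
    Pi.single_eq_of_ne (ix_ne (by omega) (by omega) (by omega)) _
  have hN : NN (rw' (swc (sm m k)) x) (ix 2) (ix 1) ≠ 0 := by
    apply NNx_ne
    intro v hv2 hv1 hv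
    obtain ⟨h3, h5⟩ := eqs_x hm hv
    rw [hl, h0 m (by omega), h0 0 (by omega)] at h5
    refine ext_ix fun i hi => ?_
    rw [Pi.zero_apply]
    rcases Nat.lt_or_ge i 3 with h7 | h7
    · have h8 : i = 0 ∨ i = 1 ∨ i = 2 := by omega
      rcases h8 with rfl | rfl | rfl
      · simpa using h5
      · exact hv1
      · exact hv2
    · have h9 := h3 (i - 3) (by omega)
      have e : i - 3 + 3 = i := by omega
      rw [h0 (i - 3) (by omega), h0 (i - 3 + 1) (by omega), h0 0 (by omega), hl, e] at h9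
      simpa using h9
  have hN0 : NN (rw' (swc (sm m k)) x) (ix 2) (ix 0) = 0 := by
    have h1 : ∀ r, lx (sm m k) r x (fun i => NN (rw' (swc (sm m k)) x) i (ix 2)) = 0 := by
      intro r
      rw [← ly_sw, ly_eq]
      exact dot_NN _ r (ix 2)
    have h2 := (eqs_x hm h1).2
    rw [hl, h0 m (by omega), h0 0 (by omega)] at h2
    have h3 : NN (rw' (swc (sm m k)) x) (ix 0) (ix 2) = 0 := by simpa using h2
    rw [NN_anti, h3, neg_zero]
  have e0 := gG_x x (ix 0) (ix 0)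
  have e1 := gG_x x (ix 1) (ix 1)
  rw [hN0, hl, h0 (m - 1) (by omega), h0 m (by omega), h0 0 (by omega)] at e0
  rw [hl, h0 (m - 1) (by omega), h0 m (by omega), h0 0 (by omega)] at e1
  rw [ix_zero] at e0
  rw [ix_one] at e1 hN
  rw [uu, e0, e1, map_one, map_zero, zero_mul (gG (swc (sm m k)) x (0, 1))]
  have e : (4 : k) * (0 * (NN (rw' (swc (sm m k)) x) (ix 1) 0 *
      NN (rw' (swc (sm m k)) x) (ix 1) 0) - 0 * (NN (rw' (swc (sm m k)) x) 0 0 *
      NN (rw' (swc (sm m k)) x) 0 0) + (0 + 1) * (0 * 0)) +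
      1 * (4 * (0 * (NN (rw' (swc (sm m k)) x) 1 1 * NN (rw' (swc (sm m k)) x) 1 1) -
      0 * (NN (rw' (swc (sm m k)) x) (ix 0) 1 * NN (rw' (swc (sm m k)) x) (ix 0) 1) +
      (0 + 1) * (NN (rw' (swc (sm m k)) x) (ix 2) 1 * NN (rw' (swc (sm m k)) x) (ix 2) 1))) + 0 =
      4 * NN (rw' (swc (sm m k)) x) (ix 2) 1 ^ 2 := by
    ring
  rw [e]
  exact mul_ne_zero h4 (pow_ne_zero 2 hN)

end Pool.Agent.Helper23.H2
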